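import Pool.Agent.X175.NPI.Imm

set_option autoImplicit false

namespace Pool.Agent.X175.NPI

open TwoComplex

/-! ### the identity map -/

/-- the identity -/
def idHom (X : TwoComplex) : Hom X X where
  onV := id
  onD := id
  onD_inv := fun _ => rfl
  onD_src := fun _ => rfl
  onF := id
  pos := fun _ => true
  onSide := fun _ i => i
  onSide_bij := fun _ => Function.bijective_id
  onSide_pos := fun _ _ _ => ⟨rfl, rfl⟩
  onSide_neg := fun _ h => by cases h

theorem idHom_covering (X : TwoComplex) : (idHom X).IsCovering :=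
  ⟨⟨fun _ _ _ h => h, fun _ _ _ h => h⟩, Function.surjective_id, fun _ d h => ⟨d, h, rfl⟩,
    fun _ s h => ⟨s, h, rfl⟩⟩

/-! ### `X` is simply connected -/

theorem isPathX (p : List cX.Dart) (v w : cX.V) : IsPath v p w := by
  induction p generalizing v with
  | nil => rfl
  | cons d p ih => exact ⟨rfl, ih _⟩

/-- homotopy in `X` -/
abbrev Hx (p q : List cX.Dart) : Prop := Homotopic (X := cX) () () p q

theorem hx_step {p q : List cX.Dart} (h : Step (X := cX) p q) : Hx p q :=
  Relation.EqvGen.rel _ _ ⟨isPathX _ _ _, isPathX _ _ _, h⟩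

theorem hx_refl (p : List cX.Dart) : Hx p p := Relation.EqvGen.refl _
theorem hx_symm {p q : List cX.Dart} (h : Hx p q) : Hx q p := Relation.EqvGen.symm _ _ h
theorem hx_trans {p q r : List cX.Dart} (h : Hx p q) (h' : Hx q r) : Hx p r :=
  Relation.EqvGen.trans _ _ _ h h'

theorem hx_ctx (l r : List cX.Dart) {p q : List cX.Dart} (h : Hx p q) : Hx (l ++ p ++ r) (l ++ q ++ r) := by
  induction h with
  | rel p q h =>
    obtain ⟨_, _, h⟩ := h
    cases h with
    | cancel l₁ d l₂ =>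
      have := hx_step (Step.cancel (X := cX) (l ++ l₁) d (l₂ ++ r))
      simpa using this
    | face l₁ c i l₂ =>
      have := hx_step (Step.face (X := cX) (l ++ l₁) c i (l₂ ++ r))
      simpa using this
  | refl p => exact hx_refl _
  | symm p q _ ih => exact hx_symm ih
  | trans p q r _ _ ih1 ih2 => exact hx_trans ih1 ih2

/-- the dart `a`, `b`, `c` -/
abbrev da : cX.Dart := ((0 : Fin 3), true)
/-- the dart `b` -/
abbrev db : cX.Dart := ((1 : Fin 3), true)
/-- the dart `c` -/
abbrev dc : cX.Dart := ((2 : Fin 3), true)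
/-- the dart `a⁻¹` -/
abbrev da' : cX.Dart := ((0 : Fin 3), false)

theorem b_one : Hx [db] [] := hx_step (Step.face (X := cX) [] (0 : Fin 3) (0 : ZMod 1) [])

theorem c_one : Hx [dc] [] := hx_step (Step.face (X := cX) [] (2 : Fin 3) (0 : ZMod 1) [])

theorem r_one : Hx [db, da, db, da', da'] [] := by
  have := hx_step (Step.face (X := cX) [] (1 : Fin 3) (0 : ZMod 5) [])
  exact this

theorem a'_one : Hx [da'] [] := by
  have h1 : Hx [db, da, db, da', da'] [da, db, da', da'] := by simpa using hx_ctx [] [da, db, da', da'] b_one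
  have h2 : Hx [da, db, da', da'] [da, da', da'] := by simpa using hx_ctx [da] [da', da'] b_one
  have h3 : Hx [da, da', da'] [da'] := hx_step (Step.cancel (X := cX) [] da [da'])
  exact hx_trans (hx_symm h3) (hx_trans (hx_symm h2) (hx_trans (hx_symm h1) r_one))

theorem inv_one {d : cX.Dart} (h : Hx [d] []) : Hx [dinv d] [] := by
  have h1 : Hx [d, dinv d] [] := hx_step (Step.cancel (X := cX) [] d [])
  have h2 : Hx [d, dinv d] [dinv d] := by simpa using hx_ctx [] [dinv d] h
  exact hx_trans (hx_symm h2) h1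

theorem dart_one (d : cX.Dart) : Hx [d] [] := by
  have ha : Hx [da] [] := inv_one a'_one
  obtain ⟨e, b⟩ := d
  change Fin 3 at e
  fin_cases e <;> cases b
  · exact a'_one
  · exact ha
  · exact inv_one b_one
  · exact b_one
  · exact inv_one c_one
  · exact c_one

theorem list_one (p : List cX.Dart) : Hx p [] := by
  induction p with
  | nil => exact hx_refl _
  | cons d p ih =>
    have h1 : Hx (d :: p) p := by simpa using hx_ctx [] p (dart_one d)
    exact hx_trans h1 ih

theorem trivialX : cX.TrivialPi1 := fun _ p _ => list_one p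

theorem connectedX : cX.IsConnected := ⟨⟨()⟩, fun _ _ => ⟨[], rfl⟩⟩

theorem universalX : IsUniversalCovering (idHom cX) := ⟨idHom_covering cX, connectedX, trivialX⟩

theorem compactX : cX.IsCompact :=
  ⟨inferInstanceAs (Finite Unit), inferInstanceAs (Finite (Fin 3)), inferInstanceAs (Finite (Fin 3))⟩

/-! ### the boundary operator of `X` -/

theorem inc_eq (s : cX.Side) (e : Fin 3) : cX.inc s e =
    if wordX s.1 s.2.val = (e, true) then 1 else if wordX s.1 s.2.val = (e, false) then -1 else 0 := by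
  unfold TwoComplex.inc
  have h : cX.side s.1 s.2 = wordX s.1 s.2.val := rfl
  rw [h]
  congr 1
  congr 1

instance (c : Fin 3) : Fintype (ZMod (lenX c)) :=
  match c with
  | 0 => inferInstanceAs (Fintype (ZMod 1))
  | 1 => inferInstanceAs (Fintype (ZMod 5))
  | 2 => inferInstanceAs (Fintype (ZMod 1))

theorem sumT {R : Type} [AddCommMonoid R] (f : (Σ c : Fin 3, ZMod (lenX c)) → R) : ∑ᶠ s, f s =
      f ⟨0, (0 : ZMod 1)⟩ + (f ⟨1, (0 : ZMod 5)⟩ + f ⟨1, (1 : ZMod 5)⟩ + f ⟨1, (2 : ZMod 5)⟩ +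
        f ⟨1, (3 : ZMod 5)⟩ + f ⟨1, (4 : ZMod 5)⟩) + f ⟨2, (0 : ZMod 1)⟩ := by
  rw [finsum_eq_sum_of_fintype, Fintype.sum_sigma, Fin.sum_univ_three]
  congr 1
  · congr 1
    · exact Fin.sum_univ_one (fun i : Fin 1 => f ⟨0, (i : ZMod 1)⟩)
    · exact Fin.sum_univ_five (fun i : Fin 5 => f ⟨1, (i : ZMod 5)⟩)
  · exact Fin.sum_univ_one (fun i : Fin 1 => f ⟨2, (i : ZMod 1)⟩)

theorem bdryX {R : Type} [Ring R] (z : Fin 3 → R) (e : Fin 3) :
    cX.bdry (R := R) z e = (if e = 1 then z 0 else 0) + ((if e = 1 then 2 * z 1 else 0) +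
      (if e = 0 then - z 1 else 0)) + (if e = 2 then z 2 else 0) := by
  have w0 : ∀ e : Fin 3, cX.inc (⟨0, (0 : ZMod 1)⟩ : Σ c : Fin 3, ZMod (lenX c)) e = if e = 1 then 1 else 0 := by
    intro e; rw [inc_eq]; revert e; decide
  have w1 : ∀ e : Fin 3, cX.inc (⟨1, (0 : ZMod 5)⟩ : Σ c : Fin 3, ZMod (lenX c)) e = if e = 1 then 1 else 0 := by
    intro e; rw [inc_eq]; revert e; decide
  have w2 : ∀ e : Fin 3, cX.inc (⟨1, (1 : ZMod 5)⟩ : Σ c : Fin 3, ZMod (lenX c)) e = if e = 0 then 1 else 0 := by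
    intro e; rw [inc_eq]; revert e; decide
  have w3 : ∀ e : Fin 3, cX.inc (⟨1, (2 : ZMod 5)⟩ : Σ c : Fin 3, ZMod (lenX c)) e = if e = 1 then 1 else 0 := by
    intro e; rw [inc_eq]; revert e; decide
  have w4 : ∀ e : Fin 3, cX.inc (⟨1, (3 : ZMod 5)⟩ : Σ c : Fin 3, ZMod (lenX c)) e = if e = 0 then -1 else 0 := by
    intro e; rw [inc_eq]; revert e; decide
  have w5 : ∀ e : Fin 3, cX.inc (⟨1, (4 : ZMod 5)⟩ : Σ c : Fin 3, ZMod (lenX c)) e = if e = 0 then -1 else 0 := by
    intro e; rw [inc_eq]; revert e; decide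
  have w6 : ∀ e : Fin 3, cX.inc (⟨2, (0 : ZMod 1)⟩ : Σ c : Fin 3, ZMod (lenX c)) e = if e = 2 then 1 else 0 := by
    intro e; rw [inc_eq]; revert e; decide
  have h := sumT (fun s : (Σ c : Fin 3, ZMod (lenX c)) => ((cX.inc s e : ℤ) : R) * z s.1)
  refine (show cX.bdry (R := R) z e = _ from h).trans ?_
  simp only [w0, w1, w2, w3, w4, w5, w6]
  clear h
  fin_cases e
  · simp
  · simp [two_mul]
  · simp

theorem bdryX_zero {R : Type} [Ring R] (z : cX.F → R) (h : ∀ e, cX.bdry z e = 0) : z = 0 := by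
  have h0 := (bdryX z 0).symm.trans (h (0 : Fin 3))
  have h1 := (bdryX z 1).symm.trans (h (1 : Fin 3))
  have h2 := (bdryX z 2).symm.trans (h (2 : Fin 3))
  simp at h0 h1 h2
  funext c
  change Fin 3 at c
  fin_cases c
  · rw [h0] at h1
    simp at h1
    exact h1
  · exact h0
  · exact h2

end Pool.Agent.X175.NPI
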