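import Mathlib

/-!
# Combinatorial 2-complexes, immersions, non-positive immersions, asphericity, `ℓ²`-cycles

The cells of a combinatorial 2-complex: vertices, edges (with a chosen orientation), and 2-cells which
are polygons attached along closed edge paths. A dart is an edge with one of its two orientations
(`(e, true)` is `e` with the chosen orientation).
-/

set_option autoImplicit false

namespace Pool.Agent.X175.NPI

/-- A combinatorial CW complex of dimension at most two. The 2-cell `c` is a polygon with
`len c ≥ 1` sides, cyclically indexed by `ZMod (len c)`; its `i`-th side is attached along the dart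
`side c i`, and the darts of consecutive sides are consecutive, so that the attaching map is a closed
edge path. -/
structure TwoComplex where
  /-- the vertices -/
  V : Type
  /-- the edges -/
  E : Type
  /-- the 2-cells -/
  F : Type
  /-- the initial vertex of an edge -/
  src : E → V
  /-- the terminal vertex of an edge -/
  tgt : E → V
  /-- the number of sides of a 2-cell -/
  len : F → ℕ
  len_pos : ∀ c, 0 < len c
  /-- the attaching maps -/
  side : (c : F) → ZMod (len c) → E × Bool
  closed : ∀ (c : F) (i : ZMod (len c)),
    (if (side c i).2 then tgt (side c i).1 else src (side c i).1) =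
      (if (side c (i + 1)).2 then src (side c (i + 1)).1 else tgt (side c (i + 1)).1)

namespace TwoComplex

variable (X : TwoComplex)

/-- the oriented edges -/
abbrev Dart : Type := X.E × Bool

variable {X}

/-- the initial vertex of a dart -/
def dsrc (d : X.Dart) : X.V := if d.2 then X.src d.1 else X.tgt d.1

/-- the terminal vertex of a dart -/
def dtgt (d : X.Dart) : X.V := if d.2 then X.tgt d.1 else X.src d.1

/-- the dart with the opposite orientation -/
def dinv (d : X.Dart) : X.Dart := (d.1, !d.2)

variable (X)

/-- The sides (equivalently, the corners) of the 2-cells. The pair `(c, i)` stands for the `i`-th side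
of `c` and also for the corner of `c` between the sides `i` and `i + 1`. -/
abbrev Side : Type := Σ c : X.F, ZMod (X.len c)

variable {X}

/-- the vertex at which the corner between the sides `i` and `i + 1` of `c` lies -/
def cvert (s : X.Side) : X.V := dtgt (X.side s.1 s.2)

/-! ### edge paths, homotopy, fundamental group -/

/-- `l` is an edge path from `v` to `w` -/
def IsPath : X.V → List X.Dart → X.V → Prop
  | v, [], w => v = w
  | v, d :: l, w => dsrc d = v ∧ IsPath (dtgt d) l w

/-- the boundary word of the 2-cell `c`, read from the side `i` on -/
def bword (c : X.F) (i : ZMod (X.len c)) : List X.Dart :=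
  (List.range (X.len c)).map (fun j => X.side c (i + (j : ZMod (X.len c))))

/-- elementary homotopies of edge paths: removing a backtracking `d d⁻¹`, or the boundary word of a
2-cell -/
inductive Step : List X.Dart → List X.Dart → Prop
  | cancel (l₁ : List X.Dart) (d : X.Dart) (l₂ : List X.Dart) : Step (l₁ ++ d :: dinv d :: l₂) (l₁ ++ l₂)
  | face (l₁ : List X.Dart) (c : X.F) (i : ZMod (X.len c)) (l₂ : List X.Dart) :
      Step (l₁ ++ (bword c i ++ l₂)) (l₁ ++ l₂)

/-- homotopy (relative to the end points) of edge paths from `v` to `w` -/
def Homotopic (v w : X.V) (p q : List X.Dart) : Prop :=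
  Relation.EqvGen (fun p q => IsPath v p w ∧ IsPath v q w ∧ Step p q) p q

variable (X)

/-- the 1-skeleton is nonempty and connected -/
def IsConnected : Prop := Nonempty X.V ∧ ∀ v w : X.V, ∃ p, IsPath v p w

/-- the fundamental group is trivial: all closed edge paths are homotopic to the constant path -/
def TrivialPi1 : Prop := ∀ (v : X.V) (p : List X.Dart), IsPath v p v → Homotopic v v p []

/-- finitely many cells -/
def IsCompact : Prop := Finite X.V ∧ Finite X.E ∧ Finite X.F

/-- the Euler characteristic of a compact 2-complex -/
noncomputable def euler : ℤ := (Nat.card X.V : ℤ) - (Nat.card X.E : ℤ) + (Nat.card X.F : ℤ)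

/-! ### cellular chains -/

open Classical in
/-- the incidence number of a side with an edge -/
noncomputable def inc (s : X.Side) (e : X.E) : ℤ :=
  if X.side s.1 s.2 = (e, true) then 1 else if X.side s.1 s.2 = (e, false) then -1 else 0

/-- The cellular boundary of the 2-chain `φ`: the coefficient of the edge `e` is the sum, over all the
sides attached along `e`, of the coefficients of their 2-cells, with signs. (The sum is finite if every
edge meets only finitely many sides.) -/
noncomputable def bdry {R : Type} [Ring R] (φ : X.F → R) (e : X.E) : R :=
  ∑ᶠ s : X.Side, (X.inc s e : R) * φ s.1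

end TwoComplex

/-! ### combinatorial maps, immersions, coverings -/

/-- A combinatorial map `Y → X`: it maps vertices to vertices, darts to darts and 2-cells to 2-cells.
The sides of the polygon `c` are mapped bijectively to the sides of the image polygon, preserving
(`pos c = true`) or reversing (`pos c = false`) the cyclic order. So open cells are mapped
homeomorphically onto open cells. -/
structure Hom (Y X : TwoComplex) where
  /-- the map on vertices -/
  onV : Y.V → X.V
  /-- the map on darts -/
  onD : Y.Dart → X.Dart
  onD_inv : ∀ d, onD (TwoComplex.dinv d) = TwoComplex.dinv (onD d)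
  onD_src : ∀ d, TwoComplex.dsrc (onD d) = onV (TwoComplex.dsrc d)
  /-- the map on 2-cells -/
  onF : Y.F → X.F
  /-- the orientation behaviour on the 2-cells -/
  pos : Y.F → Bool
  /-- the map on sides -/
  onSide : (c : Y.F) → ZMod (Y.len c) → ZMod (X.len (onF c))
  onSide_bij : ∀ c, Function.Bijective (onSide c)
  onSide_pos : ∀ c, pos c = true → ∀ i, onSide c (i + 1) = onSide c i + 1 ∧
    X.side (onF c) (onSide c i) = onD (Y.side c i)
  onSide_neg : ∀ c, pos c = false → ∀ i, onSide c (i + 1) = onSide c i - 1 ∧
    X.side (onF c) (onSide c i) = TwoComplex.dinv (onD (Y.side c i))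

namespace Hom

variable {Y X : TwoComplex} (f : Hom Y X)

/-- the image of the corner between the sides `i` and `i + 1` -/
def onCorner (s : Y.Side) : X.Side :=
  ⟨f.onF s.1, if f.pos s.1 then f.onSide s.1 s.2 else f.onSide s.1 (s.2 + 1)⟩

/-- A combinatorial immersion: a locally injective combinatorial map. At each vertex different darts
issuing from it have different images, and different corners of 2-cells at it have different images. -/
def IsImmersion : Prop :=
  (∀ d d' : Y.Dart, TwoComplex.dsrc d = TwoComplex.dsrc d' → f.onD d = f.onD d' → d = d') ∧
  ∀ s s' : Y.Side, TwoComplex.cvert s = TwoComplex.cvert s' → f.onCorner s = f.onCorner s' → s = s'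

/-- A covering: at each vertex `v` of `Y` the darts issuing from `v` and the corners at `v` are mapped
bijectively to those at the image of `v`; and `f` is onto on vertices. -/
def IsCovering : Prop :=
  f.IsImmersion ∧ Function.Surjective f.onV ∧
  (∀ (v : Y.V) (d : X.Dart), TwoComplex.dsrc d = f.onV v →
    ∃ d' : Y.Dart, TwoComplex.dsrc d' = v ∧ f.onD d' = d) ∧
  ∀ (v : Y.V) (s : X.Side), TwoComplex.cvert s = f.onV v →
    ∃ s' : Y.Side, TwoComplex.cvert s' = v ∧ f.onCorner s' = s

end Hom

/-- `f : U → X` is a universal covering -/
def IsUniversalCovering {U X : TwoComplex} (f : Hom U X) : Prop :=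
  f.IsCovering ∧ U.IsConnected ∧ U.TrivialPi1

/-- `X` is aspherical: its universal covering has no nonzero integral 2-cycle (for complexes of
dimension at most two this means that the universal covering is contractible) -/
def Aspherical (X : TwoComplex) : Prop :=
  ∃ (U : TwoComplex) (f : Hom U X), IsUniversalCovering f ∧
    ∀ z : U.F → ℤ, (Function.support z).Finite → (∀ e, U.bdry z e = 0) → z = 0

/-- The second `L²`-Betti number of the compact complex `X` is zero: the universal covering has no
nonzero square summable complex 2-cycle. (The second reduced `L²`-homology is the kernel of the boundary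
operator on the square summable 2-chains, and a Hilbert module has von Neumann dimension zero exactly
if it is zero.) -/
def L2BettiTwoZero (X : TwoComplex) : Prop :=
  ∃ (U : TwoComplex) (f : Hom U X), IsUniversalCovering f ∧
    ∀ z : U.F → ℂ, (Summable fun c => ‖z c‖ ^ 2) → (∀ e, U.bdry z e = 0) → z = 0

/-- Non-positive immersions: for every combinatorial immersion `Y → X` of a compact connected
2-complex `Y`, the Euler characteristic of `Y` is at most `0` or `π₁(Y)` is trivial. -/
def NonPositiveImmersions (X : TwoComplex) : Prop :=
  ∀ (Y : TwoComplex) (f : Hom Y X), f.IsImmersion → Y.IsCompact → Y.IsConnected →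
    Y.euler ≤ 0 ∨ Y.TrivialPi1

end Pool.Agent.X175.NPI
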