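import Pool.Agent.X175.NPI.Defs

set_option autoImplicit false

namespace Pool.Agent.X175.NPI

open TwoComplex

/-! ### the contractible complex `X` of the presentation `⟨a, b, c ∣ b, b a b a⁻¹ a⁻¹, c⟩` -/

/-- number of sides -/
def lenX : Fin 3 → ℕ := ![1, 5, 1]

/-- the relators `b`, `b a b a⁻¹ a⁻¹`, `c`; the edges are `a = 0`, `b = 1`, `c = 2` -/
def wordX : Fin 3 → ℕ → Fin 3 × Bool
  | 0, _ => (1, true)
  | 1, 0 => (1, true)
  | 1, 1 => (0, true)
  | 1, 2 => (1, true)
  | 1, 3 => (0, false)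
  | 1, _ => (0, false)
  | 2, _ => (2, true)

/-- the complex -/
def cX : TwoComplex where
  V := Unit
  E := Fin 3
  F := Fin 3
  src := fun _ => ()
  tgt := fun _ => ()
  len := lenX
  len_pos := by decide
  side := fun c i => wordX c i.val
  closed := fun _ _ => rfl

/-! ### the complexes `Y k` -/

/-- the 2-cell of `X` below a 2-cell of the sphere -/
def labF : Fin 4 → Fin 3 := ![0, 0, 1, 1]

/-- the edge of `X` below an edge of `Y k` -/
def labE : Fin 7 → Fin 3 := ![0, 0, 0, 1, 1, 1, 2]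

/-- initial vertex (in the sphere) -/
def sY : Fin 7 → Fin 4 := ![0, 1, 2, 0, 1, 3, 0]

/-- terminal vertex (in the sphere) -/
def tY : Fin 7 → Fin 4 := ![1, 2, 3, 0, 2, 3, 0]

/-- the boundary words of the 2-cells of the sphere: the edges are `0, 1, 2` over `a` from `i` to `i + 1`,
`3 : 0 → 0`, `4 : 1 → 2`, `5 : 3 → 3` over `b`; the edge `6` over `c` goes to the next sphere. -/
def wordY : Fin 4 → ℕ → Fin 7 × Bool
  | 0, _ => (3, true)
  | 1, _ => (5, true)
  | 2, 0 => (3, true)
  | 2, 1 => (0, true)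
  | 2, 2 => (4, true)
  | 2, 3 => (1, false)
  | 2, _ => (0, false)
  | 3, 0 => (4, true)
  | 3, 1 => (2, true)
  | 3, 2 => (5, true)
  | 3, 3 => (2, false)
  | 3, _ => (1, false)

theorem wordX_wordY (j : Fin 4) (n : ℕ) :
    wordX (labF j) n = (labE (wordY j n).1, (wordY j n).2) := by
  fin_cases j
  · rfl
  · rfl
  · match n with
    | 0 => rfl
    | 1 => rfl
    | 2 => rfl
    | 3 => rfl
    | (n + 4) => rfl
  · match n with
    | 0 => rfl
    | 1 => rfl
    | 2 => rfl
    | 3 => rfl
    | (n + 4) => rfl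

theorem wordY_ne (j : Fin 4) (n : ℕ) : (wordY j n).1 ≠ 6 := by
  fin_cases j
  · exact (by decide : (3 : Fin 7) ≠ 6)
  · exact (by decide : (5 : Fin 7) ≠ 6)
  · match n with
    | 0 => exact (by decide : (3 : Fin 7) ≠ 6)
    | 1 => exact (by decide : (0 : Fin 7) ≠ 6)
    | 2 => exact (by decide : (4 : Fin 7) ≠ 6)
    | 3 => exact (by decide : (1 : Fin 7) ≠ 6)
    | (n + 4) => exact (by decide : (0 : Fin 7) ≠ 6)
  · match n with
    | 0 => exact (by decide : (4 : Fin 7) ≠ 6)
    | 1 => exact (by decide : (2 : Fin 7) ≠ 6)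
    | 2 => exact (by decide : (5 : Fin 7) ≠ 6)
    | 3 => exact (by decide : (2 : Fin 7) ≠ 6)
    | (n + 4) => exact (by decide : (1 : Fin 7) ≠ 6)

/-- initial vertex of a dart of the sphere -/
def ds (d : Fin 7 × Bool) : Fin 4 := if d.2 then sY d.1 else tY d.1

/-- terminal vertex of a dart of the sphere -/
def dt (d : Fin 7 × Bool) : Fin 4 := if d.2 then tY d.1 else sY d.1

theorem closedY : ∀ (j : Fin 4) (i : ZMod (lenX (labF j))),
    dt (wordY j i.val) = ds (wordY j (i + 1).val) := by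
  intro j
  fin_cases j
  · change ∀ i : ZMod 1, dt (wordY 0 i.val) = ds (wordY 0 (i + 1).val)
    decide
  · change ∀ i : ZMod 1, dt (wordY 1 i.val) = ds (wordY 1 (i + 1).val)
    decide
  · change ∀ i : ZMod 5, dt (wordY 2 i.val) = ds (wordY 2 (i + 1).val)
    decide
  · change ∀ i : ZMod 5, dt (wordY 3 i.val) = ds (wordY 3 (i + 1).val)
    decide

/-- `k` spheres, joined in a cycle by `k` edges over `c` -/
def cY (k : ℕ) : TwoComplex where
  V := Fin 4 × ZMod k
  E := Fin 7 × ZMod k
  F := Fin 4 × ZMod k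
  src := fun e => (sY e.1, e.2)
  tgt := fun e => (tY e.1, if e.1 = 6 then e.2 + 1 else e.2)
  len := fun c => lenX (labF c.1)
  len_pos := fun c => cX.len_pos (labF c.1)
  side := fun c i => (((wordY c.1 i.val).1, c.2), (wordY c.1 i.val).2)
  closed := by
    rintro ⟨j, m⟩ i
    have h := closedY j i
    have h1 := wordY_ne j i.val
    have h2 := wordY_ne j (i + 1).val
    simp only [dt, ds] at h
    simp only [h1, h2, if_false]
    revert h
    split_ifs <;> intro h <;> rw [h]

/-- the immersion -/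
def fYX (k : ℕ) : Hom (cY k) cX where
  onV := fun _ => ()
  onD := fun d => (labE d.1.1, d.2)
  onD_inv := fun _ => rfl
  onD_src := fun _ => rfl
  onF := fun c => labF c.1
  pos := fun _ => true
  onSide := fun _ i => i
  onSide_bij := fun _ => Function.bijective_id
  onSide_pos := fun c _ i => ⟨rfl, wordX_wordY c.1 i.val⟩
  onSide_neg := fun _ h => by cases h

end Pool.Agent.X175.NPI
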