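import Pool.Agent.X175.NPI.Ex

set_option autoImplicit false

namespace Pool.Agent.X175.NPI

open TwoComplex

/-! ### general facts on paths -/

section paths
variable {X : TwoComplex}

theorem isPath_append {u v w : X.V} {p q : List X.Dart} (h1 : IsPath u p v) (h2 : IsPath v q w) :
    IsPath u (p ++ q) w := by
  induction p generalizing u with
  | nil => rw [List.nil_append]; exact (show u = v from h1) ▸ h2
  | cons d p ih => exact ⟨h1.1, ih h1.2⟩

theorem dsrc_dinv (d : X.Dart) : dsrc (dinv d) = dtgt d := by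
  rcases d with ⟨e, b⟩
  cases b <;> rfl

theorem dtgt_dinv (d : X.Dart) : dtgt (dinv d) = dsrc d := by
  rcases d with ⟨e, b⟩
  cases b <;> rfl

theorem exists_rev {u v : X.V} {p : List X.Dart} (h : IsPath u p v) : ∃ q, IsPath v q u := by
  induction p generalizing u with
  | nil => exact ⟨[], (show u = v from h).symm⟩
  | cons d p ih =>
    obtain ⟨q, hq⟩ := ih h.2
    refine ⟨q ++ [dinv d], isPath_append hq ⟨dsrc_dinv d, ?_⟩⟩
    change dtgt (dinv d) = u
    rw [dtgt_dinv]
    exact h.1

/-- sum of weights along a path -/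
def wsum (w : X.Dart → ℤ) (p : List X.Dart) : ℤ := (p.map w).sum

theorem wsum_step {w : X.Dart → ℤ} (h1 : ∀ d, w (dinv d) = - w d)
    (h2 : ∀ (c : X.F) (i : ZMod (X.len c)), wsum w (bword c i) = 0) {p q : List X.Dart}
    (h : Step p q) : wsum w p = wsum w q := by
  cases h with
  | cancel l₁ d l₂ => simp [wsum, h1]
  | face l₁ c i l₂ =>
    have := h2 c i
    simp only [wsum, List.map_append, List.sum_append] at this ⊢
    rw [this]; simp

theorem wsum_homotopic {w : X.Dart → ℤ} (h1 : ∀ d, w (dinv d) = - w d)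
    (h2 : ∀ (c : X.F) (i : ZMod (X.len c)), wsum w (bword c i) = 0) {u v : X.V} {p q : List X.Dart}
    (h : Homotopic u v p q) : wsum w p = wsum w q := by
  induction h with
  | rel p q h => exact wsum_step h1 h2 h.2.2
  | refl p => rfl
  | symm p q _ ih => exact ih.symm
  | trans p q r _ _ ih1 ih2 => exact ih1.trans ih2

end paths

/-! ### the immersion -/

theorem lab_inj_s : ∀ e e' : Fin 7, sY e = sY e' → labE e = labE e' → e = e' := by decide
theorem lab_inj_t : ∀ e e' : Fin 7, tY e = tY e' → labE e = labE e' → e = e' := by decide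

theorem corner_inj : ∀ (j j' : Fin 4) (n : ℕ), labF j = labF j' → n < lenX (labF j) →
    dt (wordY j n) = dt (wordY j' n) → j = j' := by
  intro j j' n h hn
  have h6 : ∀ j : Fin 4, lenX (labF j) ≤ 5 := by decide
  have h5 : n < 5 := lt_of_lt_of_le hn (h6 j)
  revert j j'
  interval_cases n <;> decide

theorem cvertY (k : ℕ) (s : (cY k).Side) :
    cvert s = (dt (wordY s.1.1 s.2.val), s.1.2) := by
  obtain ⟨⟨j, m⟩, i⟩ := s
  have h1 := wordY_ne j i.val
  change (if (wordY j i.val).2 then ((tY (wordY j i.val).1, if (wordY j i.val).1 = 6 then m + 1 else m) :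
    Fin 4 × ZMod k) else (sY (wordY j i.val).1, m)) = _
  rw [if_neg h1]
  unfold dt
  change _ = ((if (wordY j i.val).2 = true then tY (wordY j i.val).1 else sY (wordY j i.val).1 : Fin 4), m)
  split_ifs <;> rfl

theorem immersion (k : ℕ) : (fYX k).IsImmersion := by
  constructor
  · rintro ⟨⟨e, m⟩, b⟩ ⟨⟨e', m'⟩, b'⟩ h1 h2
    have h3 : labE e = labE e' := congrArg Prod.fst h2
    have h4 : b = b' := congrArg Prod.snd h2
    subst h4
    cases b
    · have h5 : ((tY e, if e = 6 then m + 1 else m) : Fin 4 × ZMod k) =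
        (tY e', if e' = 6 then m' + 1 else m') := h1
      have h6 : e = e' := lab_inj_t _ _ (congrArg Prod.fst h5) h3
      subst h6
      have h7 : (if e = 6 then m + 1 else m) = (if e = 6 then m' + 1 else m') := congrArg Prod.snd h5
      have h8 : m = m' := by
        split_ifs at h7
        · exact add_right_cancel h7
        · exact h7
      rw [h8]
    · have h5 : ((sY e, m) : Fin 4 × ZMod k) = (sY e', m') := h1
      have h6 : e = e' := lab_inj_s _ _ (congrArg Prod.fst h5) h3
      rw [h6, show m = m' from congrArg Prod.snd h5]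
  · intro s s' h1 h2
    rw [cvertY, cvertY] at h1
    obtain ⟨⟨j, m⟩, i⟩ := s
    obtain ⟨⟨j', m'⟩, i'⟩ := s'
    have h3 : labF j = labF j' := congrArg Sigma.fst h2
    have h4 : i.val = i'.val := congrArg (fun t : cX.Side => t.2.val) h2
    have h5 : m = m' := congrArg Prod.snd h1
    have h6 : dt (wordY j i.val) = dt (wordY j' i'.val) := congrArg Prod.fst h1
    have : NeZero ((cY k).len (j, m)) := ⟨(cX.len_pos (labF j)).ne'⟩
    have h7 : j = j' := corner_inj j j' i.val h3 (ZMod.val_lt i) (by rw [h6, h4])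
    subst h7 h5
    have h8 : i = i' := ZMod.val_injective _ h4
    rw [h8]

/-! ### `Y k` is compact and connected, with Euler characteristic `k` -/

theorem compactY (k : ℕ) (hk : 0 < k) : (cY k).IsCompact := by
  have : NeZero k := ⟨hk.ne'⟩
  exact ⟨inferInstanceAs (Finite (Fin 4 × ZMod k)), inferInstanceAs (Finite (Fin 7 × ZMod k)),
    inferInstanceAs (Finite (Fin 4 × ZMod k))⟩

theorem eulerY (k : ℕ) : (cY k).euler = k := by
  have h1 : Nat.card (cY k).V = 4 * k := by
    change Nat.card (Fin 4 × ZMod k) = _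
    rw [Nat.card_prod, Nat.card_zmod, Nat.card_eq_fintype_card, Fintype.card_fin]
  have h2 : Nat.card (cY k).E = 7 * k := by
    change Nat.card (Fin 7 × ZMod k) = _
    rw [Nat.card_prod, Nat.card_zmod, Nat.card_eq_fintype_card, Fintype.card_fin]
  have h3 : Nat.card (cY k).F = 4 * k := by
    change Nat.card (Fin 4 × ZMod k) = _
    rw [Nat.card_prod, Nat.card_zmod, Nat.card_eq_fintype_card, Fintype.card_fin]
  unfold TwoComplex.euler
  rw [h1, h2, h3]
  push_cast
  ring

/-- the `c`-path of length `n` -/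
def cpath (k : ℕ) : ℕ → ZMod k → List (cY k).Dart
  | 0, _ => []
  | n + 1, m => ((6, m), true) :: cpath k n (m + 1)

theorem cpath_isPath (k n : ℕ) (m : ZMod k) :
    IsPath (X := cY k) ((0, m) : Fin 4 × ZMod k) (cpath k n m) ((0, m + n) : Fin 4 × ZMod k) := by
  induction n generalizing m with
  | zero =>
    change ((0, m) : Fin 4 × ZMod k) = (0, m + (0 : ℕ))
    simp
  | succ n ih =>
    refine ⟨rfl, ?_⟩
    change IsPath (X := cY k) ((0, m + 1) : Fin 4 × ZMod k) (cpath k n (m + 1)) _
    have := ih (m + 1)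
    convert this using 2
    push_cast
    rw [add_assoc, add_comm (1 : ZMod k)]

theorem to_zero (k : ℕ) (j : Fin 4) (m : ZMod k) :
    ∃ p, IsPath (X := cY k) ((0, m) : Fin 4 × ZMod k) p ((j, m) : Fin 4 × ZMod k) := by
  have h0 : ∀ e : Fin 7, e ≠ 6 → IsPath (X := cY k) ((sY e, m) : Fin 4 × ZMod k) [((e, m), true)]
      ((tY e, m) : Fin 4 × ZMod k) := by
    intro e he
    refine ⟨rfl, ?_⟩
    change ((tY e, if e = 6 then m + 1 else m) : Fin 4 × ZMod k) = (tY e, m)
    rw [if_neg he]
  have a0 := h0 0 (by decide)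
  have a1 := h0 1 (by decide)
  have a2 := h0 2 (by decide)
  fin_cases j
  · exact ⟨[], rfl⟩
  · exact ⟨_, a0⟩
  · exact ⟨_, isPath_append a0 a1⟩
  · exact ⟨_, isPath_append (isPath_append a0 a1) a2⟩

theorem connectedY (k : ℕ) (hk : 0 < k) : (cY k).IsConnected := by
  have : NeZero k := ⟨hk.ne'⟩
  refine ⟨⟨((0, 0) : Fin 4 × ZMod k)⟩, ?_⟩
  have key : ∀ v : (cY k).V, ∃ p, IsPath (X := cY k) ((0, 0) : Fin 4 × ZMod k) p v := by
    rintro ⟨j, m⟩
    obtain ⟨p, hp⟩ := to_zero k j m
    have h1 := cpath_isPath k m.val 0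
    rw [zero_add, ZMod.natCast_zmod_val] at h1
    exact ⟨_, isPath_append h1 hp⟩
  intro v w
  obtain ⟨p, hp⟩ := key v
  obtain ⟨q, hq⟩ := key w
  obtain ⟨r, hr⟩ := exists_rev hp
  exact ⟨_, isPath_append hr hq⟩

/-- the weight: `1` on the edges over `c` -/
def wt (k : ℕ) (d : (cY k).Dart) : ℤ := if d.1.1 = (6 : Fin 7) then (if d.2 then 1 else -1) else 0

theorem wt_inv (k : ℕ) (d : (cY k).Dart) : wt k (dinv d) = - wt k d := by
  obtain ⟨⟨e, m⟩, b⟩ := d
  cases b
  · change (if e = (6 : Fin 7) then (1 : ℤ) else 0) = - (if e = (6 : Fin 7) then (-1 : ℤ) else 0)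
    split_ifs <;> simp
  · change (if e = (6 : Fin 7) then (-1 : ℤ) else 0) = - (if e = (6 : Fin 7) then (1 : ℤ) else 0)
    split_ifs <;> simp

theorem wt_face (k : ℕ) (c : (cY k).F) (i : ZMod ((cY k).len c)) : wsum (wt k) (bword c i) = 0 := by
  unfold wsum bword
  rw [List.map_map]
  apply List.sum_eq_zero
  intro x hx
  rw [List.mem_map] at hx
  obtain ⟨n, _, rfl⟩ := hx
  change (if (wordY c.1 _).1 = (6 : Fin 7) then _ else _) = _
  rw [if_neg (wordY_ne _ _)]

theorem wsum_cpath (k n : ℕ) (m : ZMod k) : wsum (wt k) (cpath k n m) = n := by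
  induction n generalizing m with
  | zero => rfl
  | succ n ih =>
    have h := ih (m + 1)
    unfold wsum at h ⊢
    change wt k (((6 : Fin 7), m), true) + ((cpath k n (m + 1)).map (wt k)).sum = _
    rw [h]
    have : wt k (((6 : Fin 7), m), true) = 1 := rfl
    rw [this]
    push_cast
    ring

theorem nontrivialY (k : ℕ) (hk : 0 < k) : ¬ (cY k).TrivialPi1 := by
  intro h
  have h1 := cpath_isPath k k 0
  rw [zero_add, ZMod.natCast_self] at h1
  have h2 := wsum_homotopic (wt_inv k) (wt_face k) (h _ _ h1)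
  rw [wsum_cpath] at h2
  have h3 : wsum (wt k) ([] : List (cY k).Dart) = 0 := rfl
  rw [h3] at h2
  omega

end Pool.Agent.X175.NPI
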